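import Pool.Agent.T6.H93.RS.Defs

/-!
MP_8b4fe7_lc, project RS, module CLOSE: closing a cycle of edge directions.
-/

namespace Pool.Agent.T6.H93.RS

namespace ModCLOSE

theorem ccw_scale {a b c : ℝ × ℝ} {x y : ℝ} (hx : 0 < x) (hy : 0 < y) (h : CCW a b c) :
    CCW (x • a) (y • b) c := by
  have h1 : cr (x • a) (y • b) = (x * y) * cr a b := by simp [cr]; ring
  have h2 : cr (y • b) c = y * cr b c := by simp [cr]; ring
  have h3 : cr c (x • a) = x * cr c a := by simp [cr]; ring
  unfold CCW at *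
  rw [h1, h2, h3]
  have hxy : 0 < x * y := mul_pos hx hy
  rcases h with ⟨u, v⟩ | ⟨u, v⟩ | ⟨u, v⟩
  · exact Or.inl ⟨mul_pos hxy u, mul_pos hy v⟩
  · exact Or.inr (Or.inl ⟨mul_pos hy u, mul_pos hx v⟩)
  · exact Or.inr (Or.inr ⟨mul_pos hx u, mul_pos hxy v⟩)

theorem ccws_scale {s : Bool} {a b c : ℝ × ℝ} {x y : ℝ} (hx : 0 < x) (hy : 0 < y)
    (h : CCWs s a b c) : CCWs s (x • a) (y • b) c := by
  cases s
  · exact ccw_scale hy hx h
  · exact ccw_scale hx hy h

/-- Summing along `ZMod g`. -/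
theorem exists_prim (g : ℕ) [NeZero g] (v : ZMod g → ℝ × ℝ) (hv : ∑ k, v k = 0) :
    ∃ q : ZMod g → ℝ × ℝ, ∀ k, q (k + 1) - q k = v k := by
  have hsum : ∑ l ∈ Finset.range g, v (l : ZMod g) = 0 := by
    rw [← hv]
    refine Finset.sum_bij (fun l _ => (l : ZMod g)) (fun _ _ => Finset.mem_univ _) ?_ ?_
      (fun _ _ => rfl)
    · intro a ha b hb hab
      have h1 := congrArg ZMod.val hab
      simp only [ZMod.val_natCast] at h1
      rwa [Nat.mod_eq_of_lt (Finset.mem_range.mp ha), Nat.mod_eq_of_lt (Finset.mem_range.mp hb)]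
        at h1
    · intro b _
      exact ⟨b.val, Finset.mem_range.mpr (ZMod.val_lt b), ZMod.natCast_zmod_val b⟩
  refine ⟨fun k => ∑ l ∈ Finset.range k.val, v (l : ZMod g), fun k => ?_⟩
  have hk : (k + 1).val = (k.val + 1) % g := by
    have h1 : k + 1 = ((k.val + 1 : ℕ) : ZMod g) := by
      push_cast
      rw [ZMod.natCast_zmod_val]
    rw [h1, ZMod.val_natCast]
  have hlt := ZMod.val_lt k
  simp only
  rcases Nat.lt_or_ge (k.val + 1) g with h | h
  · rw [hk, Nat.mod_eq_of_lt h, Finset.sum_range_succ, ZMod.natCast_zmod_val]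
    abel
  · have h2 : k.val + 1 = g := by omega
    have h3 : ∑ l ∈ Finset.range (k.val + 1), v (l : ZMod g) = 0 := by rw [h2]; exact hsum
    rw [Finset.sum_range_succ, ZMod.natCast_zmod_val] at h3
    rw [hk, h2, Nat.mod_self, Finset.range_zero, Finset.sum_empty, zero_sub]
    exact neg_eq_of_add_eq_zero_right h3

/-- Positive lengths closing the polygon. -/
theorem exists_len {ι : Type*} [Fintype ι] [DecidableEq ι] (φ : ι → ℝ × ℝ) (i j k : ι)
    (hC : 0 < cr (φ i) (φ j)) (hA : 0 < cr (φ j) (φ k)) (hB : 0 < cr (φ k) (φ i)) :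
    ∃ L : ι → ℝ, (∀ l, 0 < L l) ∧ ∑ l, L l • φ l = 0 := by
  set A := cr (φ j) (φ k) with hAd
  set B := cr (φ k) (φ i) with hBd
  set C := cr (φ i) (φ j) with hCd
  set w : ℝ × ℝ := ∑ l, φ l with hw
  set a : ℝ := -(cr w (φ j)) / C with ha
  set b : ℝ := -(cr (φ i) w) / C with hb
  set M : ℝ := |a| / A + |b| / B with hM
  have hMA : 0 ≤ M * A + a := by
    have h1 : M * A = |a| + |b| / B * A := by
      rw [hM]; field_simp
    have h2 : 0 ≤ |b| / B * A := by positivity
    have h3 := neg_abs_le a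
    rw [h1]; linarith
  have hMB : 0 ≤ M * B + b := by
    have h1 : M * B = |b| + |a| / A * B := by
      rw [hM]; field_simp; ring
    have h2 : 0 ≤ |a| / A * B := by positivity
    have h3 := neg_abs_le b
    rw [h1]; linarith
  have hM0 : 0 ≤ M := by positivity
  refine ⟨fun l => 1 + (if l = i then M * A + a else 0) + (if l = j then M * B + b else 0) +
    (if l = k then M * C else 0), fun l => ?_, ?_⟩
  · have h1 : 0 ≤ (if l = i then M * A + a else 0) := by split_ifs <;> [exact hMA; exact le_rfl]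
    have h2 : 0 ≤ (if l = j then M * B + b else 0) := by split_ifs <;> [exact hMB; exact le_rfl]
    have h3 : 0 ≤ (if l = k then M * C else 0) := by
      split_ifs <;> [exact mul_nonneg hM0 hC.le; exact le_rfl]
    simp only
    linarith
  · simp only [add_smul, one_smul, ite_smul, zero_smul, Finset.sum_add_distrib,
      Finset.sum_ite_eq', Finset.mem_univ, if_true]
    rw [← hw]
    have hC0 : C ≠ 0 := hC.ne'
    have h1 : A • φ i + B • φ j + C • φ k = 0 := by
      ext <;> simp [hAd, hBd, hCd, cr] <;> ring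
    have h2 : a • φ i + b • φ j = -w := by
      have e1 : C * (a • φ i + b • φ j).1 = C * (-w).1 := by
        simp only [Prod.fst_add, Prod.smul_fst, smul_eq_mul, Prod.fst_neg]
        rw [ha, hb]
        field_simp
        rw [hCd]; simp only [cr]; ring
      have e2 : C * (a • φ i + b • φ j).2 = C * (-w).2 := by
        simp only [Prod.snd_add, Prod.smul_snd, smul_eq_mul, Prod.snd_neg]
        rw [ha, hb]
        field_simp
        rw [hCd]; simp only [cr]; ring
      exact Prod.ext (mul_left_cancel₀ hC0 e1) (mul_left_cancel₀ hC0 e2)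
    have h3 : w + (M * A) • φ i + a • φ i + ((M * B) • φ j + b • φ j) + (M * C) • φ k =
        w + M • (A • φ i + B • φ j + C • φ k) + (a • φ i + b • φ j) := by
      simp only [smul_add, smul_smul]
      abel
    have h4 : w + ((M * A) • φ i + a • φ i) + ((M * B) • φ j + b • φ j) + (M * C) • φ k =
        w + M • (A • φ i + B • φ j + C • φ k) + (a • φ i + b • φ j) := by
      rw [← h3]; abel
    rw [h4, h1, h2, smul_zero]
    abel

end ModCLOSE

open ModCLOSE in
theorem mCLOSE : StmtCLOSE := by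
  intro g _ s D φ hφ ⟨i, j, k, h1, h2, h3⟩
  obtain ⟨L, hL, hsum⟩ := exists_len φ i j k h1 h2 h3
  obtain ⟨q, hq⟩ := exists_prim g (fun l => L l • φ l) hsum
  refine ⟨q, fun i => ?_⟩
  have e1 : q (i + 1) - q i = L i • φ i := hq i
  have e2 : q (i - 1) - q i = L (i - 1) • (-(φ (i - 1))) := by
    have h := hq (i - 1)
    rw [sub_add_cancel] at h
    rw [smul_neg, ← h]
    abel
  rw [e1, e2]
  exact ccws_scale (hL _) (hL _) (hφ i)

end Pool.Agent.T6.H93.RS
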