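import Mathlib

/-!
# Straight-line drawings and rotation systems of cubic graphs: common definitions

Project RS (helper93), problem MP_8b4fe7_lc.  All statements used by the modules are here.
-/

namespace Pool.Agent.T6.H93.RS

/-! ## Vectors -/

/-- The cross product of two plane vectors. -/
def cr (a b : ℝ × ℝ) : ℝ := a.1 * b.2 - a.2 * b.1

/-- The three directions `a, b, c` are in counterclockwise cyclic order (open condition). -/
def CCW (a b c : ℝ × ℝ) : Prop :=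
  (0 < cr a b ∧ 0 < cr b c) ∨ (0 < cr b c ∧ 0 < cr c a) ∨ (0 < cr c a ∧ 0 < cr a b)

/-- `CCWs true a b c` : `a b c` counterclockwise; `CCWs false a b c` : `b a c` counterclockwise. -/
def CCWs : Bool → (ℝ × ℝ) → (ℝ × ℝ) → (ℝ × ℝ) → Prop
  | true, a, b, c => CCW a b c
  | false, a, b, c => CCW b a c

/-- Integer version of the cross product. -/
def crZ (a b : ℤ × ℤ) : ℤ := a.1 * b.2 - a.2 * b.1

/-- Integer version of `CCW`. -/
def CCWZ (a b c : ℤ × ℤ) : Prop :=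
  (0 < crZ a b ∧ 0 < crZ b c) ∨ (0 < crZ b c ∧ 0 < crZ c a) ∨ (0 < crZ c a ∧ 0 < crZ a b)

instance (a b c : ℤ × ℤ) : Decidable (CCWZ a b c) := by unfold CCWZ; infer_instance

/-- Integer version of `CCWs`. -/
def CCWsZ : Bool → (ℤ × ℤ) → (ℤ × ℤ) → (ℤ × ℤ) → Prop
  | true, a, b, c => CCWZ a b c
  | false, a, b, c => CCWZ b a c

instance (s : Bool) (a b c : ℤ × ℤ) : Decidable (CCWsZ s a b c) := by
  cases s <;> unfold CCWsZ <;> infer_instance

/-! ## Instances: a set `K` of constrained vertices, each with its three neighbours in the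
prescribed counterclockwise cyclic order `nb v 0, nb v 1, nb v 2` -/

section
variable {V : Type}

/-- `w` is a neighbour of (the constrained vertex) `v`. -/
def Adj (nb : V → Fin 3 → V) (v w : V) : Prop := ∃ i, nb v i = w

/-- The prescribed cyclic order at `v` is `(a, b, c)`. -/
def Cyc (nb : V → Fin 3 → V) (v a b c : V) : Prop :=
  (nb v 0 = a ∧ nb v 1 = b ∧ nb v 2 = c) ∨ (nb v 0 = b ∧ nb v 1 = c ∧ nb v 2 = a) ∨
    (nb v 0 = c ∧ nb v 1 = a ∧ nb v 2 = b)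

/-- `CycS true` is `Cyc v a b c`, `CycS false` is `Cyc v b a c`. -/
def CycS : Bool → (V → Fin 3 → V) → V → V → V → V → Prop
  | true, nb, v, a, b, c => Cyc nb v a b c
  | false, nb, v, a, b, c => Cyc nb v b a c

/-- The positions `p` realise the rotation at `v`. -/
def Rot (nb : V → Fin 3 → V) (p : V → ℝ × ℝ) (v : V) : Prop :=
  CCW (p (nb v 0) - p v) (p (nb v 1) - p v) (p (nb v 2) - p v)

/-- All constrained vertices are realised. -/
def Real (K : Finset V) (nb : V → Fin 3 → V) : Prop :=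
  ∃ p : V → ℝ × ℝ, ∀ v ∈ K, Rot nb p v

/-- General position. -/
def GP (p : V → ℝ × ℝ) : Prop :=
  Function.Injective p ∧
    ∀ u v w : V, u ≠ v → u ≠ w → v ≠ w → cr (p v - p u) (p w - p u) ≠ 0

/-- Alternating 4-cycle `c0 c1 c2 c3` with outer neighbours `d0 d1 d2 d3`. -/
def Alt (nb : V → Fin 3 → V) (c0 c1 c2 c3 d0 d1 d2 d3 : V) : Prop :=
  Cyc nb c0 c3 c1 d0 ∧ Cyc nb c1 c2 c0 d1 ∧ Cyc nb c2 c1 c3 d2 ∧ Cyc nb c3 c0 c2 d3

/-- Basic validity: constrained vertices have three distinct neighbours, different from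
themselves, and adjacency between constrained vertices is symmetric. -/
structure Val (K : Finset V) (nb : V → Fin 3 → V) : Prop where
  inj : ∀ v ∈ K, Function.Injective (nb v)
  ne : ∀ v ∈ K, ∀ i, nb v i ≠ v
  symm : ∀ v ∈ K, ∀ w ∈ K, Adj nb v w → Adj nb w v

/-- Four mutually adjacent constrained vertices. -/
def Four (K : Finset V) (nb : V → Fin 3 → V) (a b c d : V) : Prop :=
  a ∈ K ∧ b ∈ K ∧ c ∈ K ∧ d ∈ K ∧ a ≠ b ∧ a ≠ c ∧ a ≠ d ∧ b ≠ c ∧ b ≠ d ∧ c ≠ d ∧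
    Adj nb a b ∧ Adj nb a c ∧ Adj nb a d ∧ Adj nb b c ∧ Adj nb b d ∧ Adj nb c d

/-- The parity condition at a `K_4`. -/
def Par (nb : V → Fin 3 → V) (a b c d : V) : Prop :=
  (Cyc nb a b c d ↔ Cyc nb b a c d) ↔ (Cyc nb c a b d ↔ Cyc nb d a b c)

/-- A good instance. -/
structure Good (K : Finset V) (nb : V → Fin 3 → V) : Prop extends Val K nb where
  par : ∀ a b c d, Four K nb a b c d → Par nb a b c d
  noalt : ∀ c0 ∈ K, ∀ c1 ∈ K, ∀ c2 ∈ K, ∀ c3 ∈ K, ∀ e, ¬ Alt nb c0 c1 c2 c3 e e e e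

/-- The induction hypothesis: all good instances on `V` with fewer constrained vertices are
realisable. -/
def IH (V : Type) [DecidableEq V] [Fintype V] (n : ℕ) : Prop :=
  ∀ (K : Finset V) (nb : V → Fin 3 → V), K.card < n → Good K nb → Real K nb

/-- A cycle of length `n` in `K`. -/
def HasCyc (K : Finset V) (nb : V → Fin 3 → V) (n : ℕ) : Prop :=
  ∃ c : ZMod n → V, Function.Injective c ∧ (∀ i, c i ∈ K) ∧ ∀ i, Adj nb (c i) (c (i + 1))

/-- A diamond `u a w b`: `a ~ b`, both adjacent to `u` and `w`. -/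
def Dia (K : Finset V) (nb : V → Fin 3 → V) (u a w b : V) : Prop :=
  u ∈ K ∧ a ∈ K ∧ w ∈ K ∧ b ∈ K ∧ u ≠ a ∧ u ≠ w ∧ u ≠ b ∧ a ≠ w ∧ a ≠ b ∧ w ≠ b ∧
    Adj nb a u ∧ Adj nb a w ∧ Adj nb a b ∧ Adj nb b u ∧ Adj nb b w

/-- Collapse of the set `Q` to the vertex `x`. -/
def col [DecidableEq V] (Q : Finset V) (x w : V) : V := if w ∈ Q then x else w

/-- The collapsed neighbour function. -/
def cnb [DecidableEq V] (Q : Finset V) (x : V) (nb : V → Fin 3 → V) : V → Fin 3 → V :=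
  fun v i => col Q x (nb v i)

/-- Infinitesimal direction from `v ∈ Q` to `w`. -/
noncomputable def edir [DecidableEq V] (Q : Finset V) (x : V) (p q : V → ℝ × ℝ) (v w : V) :
    ℝ × ℝ := if w ∈ Q then q w - q v else p w - p x

/-- `z` has exactly the two neighbours `a, b` in `Q`, and the shape `q` of `Q` realises the
rotation at `z`. -/
def Pend (nb : V → Fin 3 → V) (Q : Finset V) (x : V) (p q : V → ℝ × ℝ) (z : V) : Prop :=
  ∃ a b y, a ∈ Q ∧ b ∈ Q ∧ y ∉ Q ∧ z ∉ Q ∧ Cyc nb z a b y ∧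
    cr (p z - p x) (q b - q a) < 0 ∧ cr (p z - p x) (p y - p z) ≠ 0

end

/-! ## Statements of the modules -/

/-- PERT: perturbation to general position. -/
def StmtPERT : Prop := ∀ (V : Type) [Fintype V] (K : Finset V) (nb : V → Fin 3 → V),
  Real K nb → ∃ p : V → ℝ × ℝ, GP p ∧ ∀ v ∈ K, Rot nb p v

/-- EXP: expansion of the collapsed set `Q`. -/
def StmtEXP : Prop := ∀ (V : Type) [Fintype V] [DecidableEq V] (K : Finset V)
  (nb : V → Fin 3 → V) (Q : Finset V) (x : V) (p q : V → ℝ × ℝ),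
  (∀ v ∈ K, v ∉ Q → Rot (cnb Q x nb) p v ∨ Pend nb Q x p q v) →
  (∀ v ∈ K, v ∈ Q → CCW (edir Q x p q v (nb v 0)) (edir Q x p q v (nb v 1))
    (edir Q x p q v (nb v 2))) →
  Real K nb

/-- CON: the collapsed instance is good. -/
def StmtCON : Prop := ∀ (V : Type) [Fintype V] [DecidableEq V] (K K' : Finset V)
  (nb : V → Fin 3 → V) (Q : Finset V) (x : V), x ∈ Q → Good K nb → K' ⊆ K → Disjoint K' Q →
  (∀ v ∈ K', ∀ i j, nb v i ∈ Q → nb v j ∈ Q → i = j) →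
  (∀ c0 ∈ K', ∀ c1 ∈ K', ∀ c2 ∈ K', ∀ c3 ∈ K', ∀ d0 ∈ Q, ∀ d1 ∈ Q, ∀ d2 ∈ Q, ∀ d3 ∈ Q,
    ¬ Alt nb c0 c1 c2 c3 d0 d1 d2 d3) →
  Good K' (cnb Q x nb)

/-- Model vectors of a piece on `Fin n`: `sl i k` is the vertex at slot `k` of vertex `i`, `none`
stands for the outer direction of `i`. -/
def slotV {n : ℕ} (q D : Fin n → ℝ × ℝ) (i : Fin n) : Option (Fin n) → ℝ × ℝ
  | some j => q j - q i
  | none => D i

/-- Integer version of `slotV`; the outer direction is `(-t, 0)`. -/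
def slotZ {n : ℕ} (m : Fin n → ℤ × ℤ) (t : Fin n → ℤ) (i : Fin n) : Option (Fin n) → ℤ × ℤ
  | some j => m j - m i
  | none => (-(t i), 0)

/-- THIN: a thin integer model gives a real shape for all directions `D` with the right sides with
respect to the axis `U`. -/
def StmtTHIN : Prop := ∀ (n : ℕ) (sl : Fin n → Fin 3 → Option (Fin n)) (s : Fin n → Bool)
  (t : Fin n → ℤ) (m : Fin n → ℤ × ℤ) (D : Fin n → ℝ × ℝ) (U : ℝ × ℝ),
  (∀ i, 0 < (t i : ℝ) * cr U (D i)) →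
  (∀ i, CCWsZ (s i) (slotZ m t i (sl i 0)) (slotZ m t i (sl i 1)) (slotZ m t i (sl i 2))) →
  ∃ q : Fin n → ℝ × ℝ,
    (∀ i, CCWs (s i) (slotV q D i (sl i 0)) (slotV q D i (sl i 1)) (slotV q D i (sl i 2))) ∧
    ∀ i j, (m i).2 < (m j).2 → 0 < (t i : ℝ) * cr (q j - q i) (D i)

/-- S3: shapes of triangles. -/
def StmtS3 : Prop := ∀ (s : Fin 3 → Bool) (D : Fin 3 → ℝ × ℝ), (∀ i, D i ≠ 0) →
  ∃ q : Fin 3 → ℝ × ℝ, ∀ i, CCWs (s i) (q (i - 1) - q i) (q (i + 1) - q i) (D i)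

/-- The sign pattern `s` on a 4-cycle is alternating. -/
def AltS (s : Fin 4 → Bool) : Prop := s 0 = s 2 ∧ s 1 = s 3 ∧ s 0 ≠ s 1

/-- S4a: shapes of 4-cycles. -/
def StmtS4a : Prop := ∀ (s : Fin 4 → Bool) (D : Fin 4 → ℝ × ℝ), (∀ i, D i ≠ 0) →
  (∀ i j, D i = D j ∨ cr (D i) (D j) ≠ 0) → (AltS s → ∃ i j, D i ≠ D j) →
  ∃ q : Fin 4 → ℝ × ℝ, ∀ i, CCWs (s i) (q (i - 1) - q i) (q (i + 1) - q i) (D i)

/-- S4b: shapes of 4-cycles, opposite vertices `0, 2` have a common outer neighbour. -/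
def StmtS4b : Prop := ∀ (s : Fin 4 → Bool) (D : Fin 4 → ℝ × ℝ) (e : Bool), D 0 = D 2 →
  cr (D 0) (D 1) ≠ 0 → cr (D 0) (D 3) ≠ 0 → (D 1 = D 3 ∨ cr (D 1) (D 3) ≠ 0) →
  ∃ q : Fin 4 → ℝ × ℝ, (∀ i, CCWs (s i) (q (i - 1) - q i) (q (i + 1) - q i) (D i)) ∧
    (if e then 0 < cr (D 0) (q 2 - q 0) else cr (D 0) (q 2 - q 0) < 0)

/-- S4c: shapes of 4-cycles, both pairs of opposite vertices have a common outer neighbour. -/
def StmtS4c : Prop := ∀ (s : Fin 4 → Bool) (D : Fin 4 → ℝ × ℝ) (e e' : Bool), D 0 = D 2 →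
  D 1 = D 3 → cr (D 0) (D 1) ≠ 0 →
  ∃ q : Fin 4 → ℝ × ℝ, (∀ i, CCWs (s i) (q (i - 1) - q i) (q (i + 1) - q i) (D i)) ∧
    (if e then 0 < cr (D 0) (q 2 - q 0) else cr (D 0) (q 2 - q 0) < 0) ∧
    (if e' then 0 < cr (D 1) (q 3 - q 1) else cr (D 1) (q 3 - q 1) < 0)

/-- SD: shapes of diamonds (`0 = u, 1 = a, 2 = w, 3 = b`). -/
def StmtSD : Prop := ∀ (s : Fin 4 → Bool) (Du Dw : ℝ × ℝ), Du ≠ 0 → Dw ≠ 0 →
  (Du = Dw ∨ cr Du Dw ≠ 0) →
  ∃ q : Fin 4 → ℝ × ℝ, CCWs (s 0) (q 1 - q 0) (q 3 - q 0) Du ∧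
    CCWs (s 1) (q 0 - q 1) (q 2 - q 1) (q 3 - q 1) ∧
    CCWs (s 2) (q 1 - q 2) (q 3 - q 2) Dw ∧
    CCWs (s 3) (q 0 - q 3) (q 2 - q 3) (q 1 - q 3)

/-- S5: shapes of a diamond `0 1 2 3` together with the common neighbour `4` of `0` and `2`. -/
def StmtS5 : Prop := ∀ (s : Fin 5 → Bool) (D : ℝ × ℝ), D ≠ 0 →
  ∃ q : Fin 5 → ℝ × ℝ, CCWs (s 0) (q 1 - q 0) (q 3 - q 0) (q 4 - q 0) ∧
    CCWs (s 1) (q 0 - q 1) (q 2 - q 1) (q 3 - q 1) ∧
    CCWs (s 2) (q 1 - q 2) (q 3 - q 2) (q 4 - q 2) ∧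
    CCWs (s 3) (q 0 - q 3) (q 2 - q 3) (q 1 - q 3) ∧
    CCWs (s 4) (q 0 - q 4) (q 2 - q 4) D

/-- SK: positions of `K_4`. -/
def StmtSK : Prop := ∀ (s : Fin 4 → Bool), ((s 0 = s 1) ↔ (s 2 = s 3)) →
  ∃ q : Fin 4 → ℝ × ℝ, CCWs (s 0) (q 1 - q 0) (q 2 - q 0) (q 3 - q 0) ∧
    CCWs (s 1) (q 0 - q 1) (q 2 - q 1) (q 3 - q 1) ∧
    CCWs (s 2) (q 0 - q 2) (q 1 - q 2) (q 3 - q 2) ∧
    CCWs (s 3) (q 0 - q 3) (q 1 - q 3) (q 2 - q 3)

/-- NK: necessity of the parity condition at `K_4`. -/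
def StmtNK : Prop := ∀ (s : Fin 4 → Bool) (q : Fin 4 → ℝ × ℝ),
  CCWs (s 0) (q 1 - q 0) (q 2 - q 0) (q 3 - q 0) →
    CCWs (s 1) (q 0 - q 1) (q 2 - q 1) (q 3 - q 1) →
    CCWs (s 2) (q 0 - q 2) (q 1 - q 2) (q 3 - q 2) →
    CCWs (s 3) (q 0 - q 3) (q 1 - q 3) (q 2 - q 3) → ((s 0 = s 1) ↔ (s 2 = s 3))

/-- Even residues have sign `true`. -/
def evs (i : Fin 4) : Bool := decide (i = 0 ∨ i = 2)

/-- S8: two alternating 4-cycles joined by a perfect matching. -/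
def StmtS8 : Prop := ∀ σ : Fin 4 → Fin 4, Function.Injective σ →
  ∃ P P' : Fin 4 → ℝ × ℝ,
    (∀ j, CCWs (evs j) (P' (j - 1) - P' j) (P' (j + 1) - P' j) (P (σ j) - P' j)) ∧
    ∀ j, CCWs (evs (σ j)) (P (σ j - 1) - P (σ j)) (P (σ j + 1) - P (σ j)) (P' j - P (σ j))

/-- SC: shapes of cycles of length at least 5. -/
def StmtSC : Prop := ∀ (g : ℕ), 5 ≤ g → ∀ (s : ZMod g → Bool) (D : ZMod g → ℝ × ℝ),
  (∀ i, D i ≠ 0) → (∀ i j, D i = D j ∨ cr (D i) (D j) ≠ 0) →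
  ∃ q : ZMod g → ℝ × ℝ, ∀ i, CCWs (s i) (q (i - 1) - q i) (q (i + 1) - q i) (D i)

/-- CLOSE: closing a cycle of edge directions. -/
def StmtCLOSE : Prop := ∀ (g : ℕ) [NeZero g] (s : ZMod g → Bool) (D φ : ZMod g → ℝ × ℝ),
  (∀ i, CCWs (s i) (-(φ (i - 1))) (φ i) (D i)) →
  (∃ i j k, 0 < cr (φ i) (φ j) ∧ 0 < cr (φ j) (φ k) ∧ 0 < cr (φ k) (φ i)) →
  ∃ q : ZMod g → ℝ × ℝ, ∀ i, CCWs (s i) (q (i - 1) - q i) (q (i + 1) - q i) (D i)

/-- ZN: edge directions in the non-alternating case (`s 1 = s 2`), `g ≥ 5`. -/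
def StmtZN : Prop := ∀ (g : ℕ), 5 ≤ g → ∀ (s : ZMod g → Bool) (D : ZMod g → ℝ × ℝ),
  (∀ i, D i ≠ 0) → (∀ i j, D i = D j ∨ cr (D i) (D j) ≠ 0) → s 1 = s 2 →
  ∃ φ : ZMod g → ℝ × ℝ, (∀ i, CCWs (s i) (-(φ (i - 1))) (φ i) (D i)) ∧
    (∃ i j k, 0 < cr (φ i) (φ j) ∧ 0 < cr (φ j) (φ k) ∧ 0 < cr (φ k) (φ i))

/-- ZA: edge directions in the alternating case, `g ≥ 6`. -/
def StmtZA : Prop := ∀ (g : ℕ), 6 ≤ g → ∀ (s : ZMod g → Bool) (D : ZMod g → ℝ × ℝ),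
  (∀ i, D i ≠ 0) → (∀ i j, D i = D j ∨ cr (D i) (D j) ≠ 0) →
  s 2 = !(s 1) → s 3 = s 1 → s 4 = !(s 1) →
  ∃ φ : ZMod g → ℝ × ℝ, (∀ i, CCWs (s i) (-(φ (i - 1))) (φ i) (D i)) ∧
    (∃ i j k, 0 < cr (φ i) (φ j) ∧ 0 < cr (φ j) (φ k) ∧ 0 < cr (φ k) (φ i))

/-- RANK: an acyclic set of constrained vertices can be ordered. -/
def StmtRANK : Prop := ∀ (V : Type) [Fintype V] [DecidableEq V] (K : Finset V)
  (nb : V → Fin 3 → V), Val K nb → (∀ n, 3 ≤ n → ¬ HasCyc K nb n) →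
  ∃ r : V → ℕ, Function.Injective r ∧
    ∀ v ∈ K, ∃ i j, i ≠ j ∧ r (nb v i) < r v ∧ r (nb v j) < r v

/-- ORD: realisation from a rank function. -/
def StmtORD : Prop := ∀ (V : Type) [Fintype V] (K : Finset V)
  (nb : V → Fin 3 → V) (r : V → ℕ), Function.Injective r → Val K nb →
  (∀ v ∈ K, ∃ i j, i ≠ j ∧ r (nb v i) < r v ∧ r (nb v j) < r v) → Real K nb

/-- CHORD: a shortest cycle is induced. -/
def StmtCHORD : Prop := ∀ (V : Type) [Fintype V] [DecidableEq V] (K : Finset V)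
  (nb : V → Fin 3 → V) (g : ℕ) (c : ZMod g → V), Val K nb → 3 ≤ g →
  (∀ n, 3 ≤ n → n < g → ¬ HasCyc K nb n) →
  Function.Injective c → (∀ i, c i ∈ K) → (∀ i, Adj nb (c i) (c (i + 1))) →
  ∀ i j, Adj nb (c i) (c j) → j = i + 1 ∨ j = i - 1

/-- TWO: a vertex outside a shortest cycle of length at least 5 has at most one neighbour on it. -/
def StmtTWO : Prop := ∀ (V : Type) [Fintype V] [DecidableEq V] (K : Finset V)
  (nb : V → Fin 3 → V) (g : ℕ) (c : ZMod g → V), Val K nb → 5 ≤ g →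
  (∀ n, 3 ≤ n → n < g → ¬ HasCyc K nb n) →
  Function.Injective c → (∀ i, c i ∈ K) → (∀ i, Adj nb (c i) (c (i + 1))) →
  ∀ v ∈ K, (∀ i, c i ≠ v) → ∀ i j, Adj nb v (c i) → Adj nb v (c j) → i = j

/-! ### Induction steps -/

/-- STK: a `K_4`. -/
def StmtSTK : Prop := ∀ (V : Type) [Fintype V] [DecidableEq V] (K : Finset V)
  (nb : V → Fin 3 → V), IH V K.card → Good K nb → (∃ a b c d, Four K nb a b c d) → Real K nb

/-- STD: a diamond whose ends have no common constrained outer neighbour. -/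
def StmtSTD : Prop := ∀ (V : Type) [Fintype V] [DecidableEq V] (K : Finset V)
  (nb : V → Fin 3 → V), IH V K.card → Good K nb → (∀ a b c d, ¬ Four K nb a b c d) →
  ∀ u a w b, Dia K nb u a w b → (∀ z ∈ K, z ≠ a → z ≠ b → Adj nb z u → Adj nb z w → False) →
  Real K nb

/-- STF: a diamond whose ends have a common constrained outer neighbour. -/
def StmtSTF : Prop := ∀ (V : Type) [Fintype V] [DecidableEq V] (K : Finset V)
  (nb : V → Fin 3 → V), IH V K.card → Good K nb → (∀ a b c d, ¬ Four K nb a b c d) →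
  ∀ u a w b z, Dia K nb u a w b → z ∈ K → z ≠ a → z ≠ b → Adj nb z u → Adj nb z w → Real K nb

/-- STT: a triangle, no diamonds. -/
def StmtSTT : Prop := ∀ (V : Type) [Fintype V] [DecidableEq V] (K : Finset V)
  (nb : V → Fin 3 → V), IH V K.card → Good K nb → (∀ a b c d, ¬ Four K nb a b c d) →
  (∀ u a w b, ¬ Dia K nb u a w b) → HasCyc K nb 3 → Real K nb

/-- ST8: two alternating 4-cycles joined by a matching. -/
def StmtST8 : Prop := ∀ (V : Type) [Fintype V] [DecidableEq V] (K : Finset V)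
  (nb : V → Fin 3 → V), IH V K.card → Good K nb → ¬ HasCyc K nb 3 →
  ∀ c0 ∈ K, ∀ c1 ∈ K, ∀ c2 ∈ K, ∀ c3 ∈ K, ∀ e0 ∈ K, ∀ e1 ∈ K, ∀ e2 ∈ K, ∀ e3 ∈ K,
  ∀ d0 d1 d2 d3 f0 f1 f2 f3,
  Alt nb c0 c1 c2 c3 d0 d1 d2 d3 → Alt nb e0 e1 e2 e3 f0 f1 f2 f3 →
  (∀ e ∈ ({e0, e1, e2, e3} : Finset V), e ∉ ({c0, c1, c2, c3} : Finset V)) →
  (∀ f ∈ ({f0, f1, f2, f3} : Finset V), f ∈ ({c0, c1, c2, c3} : Finset V)) → Real K nb

/-- ST4: a 4-cycle, no triangle, whose collapse creates no forbidden alternating 4-cycle. -/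
def StmtST4 : Prop := ∀ (V : Type) [Fintype V] [DecidableEq V] (K : Finset V)
  (nb : V → Fin 3 → V), IH V K.card → Good K nb → ¬ HasCyc K nb 3 →
  ∀ c : ZMod 4 → V, Function.Injective c → (∀ i, c i ∈ K) → (∀ i, Adj nb (c i) (c (i + 1))) →
  (∀ e0 ∈ K, ∀ e1 ∈ K, ∀ e2 ∈ K, ∀ e3 ∈ K, ∀ f0 f1 f2 f3, (∀ i, c i ≠ e0) →
    (∀ i, c i ≠ e1) → (∀ i, c i ≠ e2) → (∀ i, c i ≠ e3) →
    (∃ i, c i = f0) → (∃ i, c i = f1) → (∃ i, c i = f2) → (∃ i, c i = f3) →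
    ¬ Alt nb e0 e1 e2 e3 f0 f1 f2 f3) →
  Real K nb

/-- STC: a shortest cycle of length at least 5. -/
def StmtSTC : Prop := ∀ (V : Type) [Fintype V] [DecidableEq V] (K : Finset V)
  (nb : V → Fin 3 → V), IH V K.card → Good K nb → ∀ g, 5 ≤ g →
  (∀ n, 3 ≤ n → n < g → ¬ HasCyc K nb n) → HasCyc K nb g → Real K nb

/-- STEP: the induction step. -/
def StmtSTEP : Prop := ∀ (V : Type) [Fintype V] [DecidableEq V] (K : Finset V)
  (nb : V → Fin 3 → V), IH V K.card → Good K nb → Real K nb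

/-- CORE: every good instance is realisable. -/
def StmtCORE : Prop := ∀ (V : Type) [Fintype V] [DecidableEq V] (K : Finset V)
  (nb : V → Fin 3 → V), Good K nb → Real K nb

/-! ## The problem -/

/-- A rotation system: at each vertex a cyclic order of the neighbours, given by the successor
permutation, which has a single orbit. -/
structure RotationSystem {V : Type} (G : SimpleGraph V) where
  succ : ∀ v, Equiv.Perm (G.neighborSet v)
  cyclic : ∀ v (a b : G.neighborSet v), ∃ n : ℕ, ((succ v) ^ n) a = b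

/-- A straight-line drawing: distinct points, no vertex in (the relative interior of) an edge. -/
structure IsDrawing {V : Type} (G : SimpleGraph V) (p : V → ℂ) : Prop where
  inj : Function.Injective p
  avoid : ∀ u v w, G.Adj u v → w ≠ u → w ≠ v → p w ∉ segment ℝ (p u) (p v)

/-- The angle in `[0, 2π)` by which `a` has to be turned counterclockwise to get the direction of
`b`. -/
noncomputable def ccwAngle (a b : ℂ) : ℝ :=
  toIcoMod (by positivity : (0 : ℝ) < 2 * Real.pi) 0 (Complex.arg (b / a))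

/-- The drawing `p` realises `π`: turning counterclockwise around `v` from the edge to `a`, the
first edge met is the one to the successor of `a`. -/
def Realizes {V : Type} (G : SimpleGraph V) (p : V → ℂ) (π : RotationSystem G) : Prop :=
  ∀ v (a b : G.neighborSet v), b ≠ a → b ≠ π.succ v a →
    ccwAngle (p a - p v) (p (π.succ v a) - p v) < ccwAngle (p a - p v) (p b - p v)

/-- `π` is realisable by a straight-line drawing. -/
def Realizable {V : Type} (G : SimpleGraph V) (π : RotationSystem G) : Prop :=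
  ∃ p : V → ℂ, IsDrawing G p ∧ Realizes G p π

/-- The successor of `a` at `v` is `b`. -/
def SuccIs {V : Type} {G : SimpleGraph V} (π : RotationSystem G) (v a b : V) : Prop :=
  ∃ h : G.Adj v a, ((π.succ v ⟨a, h⟩ : G.neighborSet v) : V) = b

/-- Plane vector of a complex number. -/
def toV (z : ℂ) : ℝ × ℝ := (z.re, z.im)

/-- ANG1. -/
def StmtANG1 : Prop := ∀ A B C : ℂ, CCW (toV A) (toV B) (toV C) → ccwAngle A B < ccwAngle A C

/-- ANG2. -/
def StmtANG2 : Prop := ∀ A B C : ℂ, A ≠ 0 → B ≠ 0 → C ≠ 0 →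
  (¬ ∃ t : ℝ, 0 < t ∧ B = t * A) → (¬ ∃ t : ℝ, 0 < t ∧ C = t * B) →
  (¬ ∃ t : ℝ, 0 < t ∧ A = t * C) → ccwAngle A B < ccwAngle A C →
  CCW (toV A) (toV B) (toV C)

/-- NB: the neighbour function of a rotation system of a cubic graph. -/
def StmtNB : Prop := ∀ (V : Type) [Fintype V] [DecidableEq V] (G : SimpleGraph V),
  (∀ v, (G.neighborSet v).ncard = 3) → ∀ π : RotationSystem G,
  ∃ nb : V → Fin 3 → V, (∀ v, Function.Injective (nb v)) ∧
    (∀ v w, Adj nb v w ↔ G.Adj v w) ∧ ∀ v i, SuccIs π v (nb v i) (nb v (i + 1))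

/-- MAIN: the answer to the problem. -/
def StmtMAIN : Prop := ∀ (V : Type) [Fintype V] (G : SimpleGraph V),
  (∀ v, (G.neighborSet v).ncard = 3) → ∀ π : RotationSystem G,
  (Realizable G π ↔ ∀ a b c d, G.Adj a b → G.Adj a c → G.Adj a d → G.Adj b c → G.Adj b d →
    G.Adj c d → ((SuccIs π a b c ↔ SuccIs π b a c) ↔ (SuccIs π c a b ↔ SuccIs π d a b)))

end Pool.Agent.T6.H93.RS
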