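import Pool.Agent.T6.H93.RS.ZLoc

/-!
MP_8b4fe7_lc, project RS, module ZA: edge directions in the alternating case.
-/

namespace Pool.Agent.T6.H93.RS

open Filter Topology ModZ

theorem mZA : StmtZA := by
  intro g hg s D hD hDD hs2 hs3 hs4
  have : NeZero g := ⟨by omega⟩
  have n1 : (1 : ZMod g) ≠ 0 := by simpa using num_ne (g := g) 1 (by omega) (by omega)
  have n2 : (2 : ZMod g) ≠ 0 := by simpa using num_ne (g := g) 2 (by omega) (by omega)
  have n3 : (3 : ZMod g) ≠ 0 := by simpa using num_ne (g := g) 3 (by omega) (by omega)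
  have n4 : (4 : ZMod g) ≠ 0 := by simpa using num_ne (g := g) 4 (by omega) (by omega)
  have g2 : sg (s 2) = -sg (s 1) := by rw [hs2, sg_not]
  have g4 : sg (s 4) = -sg (s 1) := by rw [hs4, sg_not]
  have g3 : sg (s 3) = sg (s 1) := by rw [hs3]
  set P0 : ℝ → ℝ × ℝ := fun t => fv (s 0) (D 0) t with hP0
  set P1 : ℝ → ℝ × ℝ := fun t => -P0 t + (sg (s 1) * t) • J (-P0 t) with hP1
  set P2 : ℝ → ℝ × ℝ := fun t => -P1 t + (sg (s 2) * (t / 2)) • J (-P1 t) with hP2
  set P3 : ℝ → ℝ × ℝ := fun t => fv (s 3) (D 3) t with hP3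
  set P4 : ℝ → ℝ × ℝ := fun t => -P3 t + (sg (s 4) * t) • J (-P3 t) with hP4
  have c0 : Continuous P0 := by rw [hP0]; fun_prop
  have c1 : Continuous P1 := by rw [hP1]; fun_prop
  have c2 : Continuous P2 := by rw [hP2]; fun_prop
  have c3 : Continuous P3 := by rw [hP3]; fun_prop
  have c4 : Continuous P4 := by rw [hP4]; fun_prop
  have z0 : P0 0 = D 0 := by simp [hP0]
  have z1 : P1 0 = -D 0 := by simp [hP1, z0]
  have z2 : P2 0 = D 0 := by simp [hP2, z1]
  have z3 : P3 0 = D 3 := by simp [hP3]
  have z4 : P4 0 = -D 3 := by simp [hP4, z3]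
  set φ : ℝ → ZMod g → ℝ × ℝ := fun t i =>
    if i = 1 then P1 t else if i = 2 then P2 t else if i = 4 then P4 t else fv (s i) (D i) t
    with hφ
  have d21 : (2 : ZMod g) ≠ 1 := fun h => n1 (by linear_combination h)
  have d41 : (4 : ZMod g) ≠ 1 := fun h => n3 (by linear_combination h)
  have d42 : (4 : ZMod g) ≠ 2 := fun h => n2 (by linear_combination h)
  have fo : ∀ t i, i ≠ 1 → i ≠ 2 → i ≠ 4 → φ t i = fv (s i) (D i) t := fun t i h1 h2 h4 => by
    simp only [hφ]
    rw [if_neg h1, if_neg h2, if_neg h4]
  have f0 : ∀ t, φ t 0 = P0 t := fun t => fo t 0 n1.symm n2.symm n4.symm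
  have f3 : ∀ t, φ t 3 = P3 t := fun t => fo t 3 (fun h => n2 (by linear_combination h))
    (fun h => n1 (by linear_combination h)) (fun h => n1 (by linear_combination -h))
  have f1 : ∀ t, φ t 1 = P1 t := fun t => by simp [hφ]
  have f2 : ∀ t, φ t 2 = P2 t := fun t => by
    simp only [hφ]
    rw [if_neg d21]
    simp
  have f4 : ∀ t, φ t 4 = P4 t := fun t => by
    simp only [hφ]
    rw [if_neg d41, if_neg d42]
    simp
  have key : ∀ i, ∀ᶠ t in 𝓝[>] (0 : ℝ), CCWs (s i) (-(φ t (i - 1))) (φ t i) (D i) := by
    intro i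
    by_cases i1 : i = 1
    · subst i1
      have h := ok_neg (b := s 1) (e := fun t => t) (hD 1)
        (tendsto_poly (f := fun t => -P0 t) (by fun_prop) (P := -D 0) (by simp only [z0]))
        tendsto_id' (hDD 0 1)
      filter_upwards [h, evpos] with t ht hpos
      rw [sub_self, f0, f1]
      exact bl hpos (neg_ne_zero.mpr (fv_ne (hD 0) t)) ht
    by_cases i2 : i = 2
    · subst i2
      have h : ∀ᶠ t in 𝓝[>] (0 : ℝ), OK (s 2) (-P1 t) (D 2) (t / 2) := by
        rcases hDD 0 2 with h0 | h0
        · filter_upwards [evpos, evlt (c := 1 / 4) (by norm_num)] with t hpos hlt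
          right; right
          rw [← h0, g2]
          have hN := ip_self_pos (hD 0)
          have e1 : -sg (s 1) * cr (-P1 t) (D 0) =
              ((sg (s 1) * sg (s 1)) * t - sg (s 1) * sg (s 0) * t ^ 2) * ip (D 0) (D 0) := by
            simp only [hP1, hP0, fv, J, cr, ip, Prod.fst_neg, Prod.snd_neg, Prod.fst_add,
              Prod.snd_add, Prod.smul_fst, Prod.smul_snd, smul_eq_mul, Prod.fst_sub, Prod.snd_sub]
            ring
          have e2 : ip (-P1 t) (D 0) =
              (1 + sg (s 1) * sg (s 0) * t ^ 3) * ip (D 0) (D 0) := by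
            simp only [hP1, hP0, fv, J, ip, Prod.fst_neg, Prod.snd_neg, Prod.fst_add,
              Prod.snd_add, Prod.smul_fst, Prod.smul_snd, smul_eq_mul, Prod.fst_sub, Prod.snd_sub]
            ring
          rw [e1, e2, sg_sq, one_mul, ← mul_assoc]
          refine mul_lt_mul_of_pos_right ?_ hN
          have t2 : t ^ 2 < t / 4 := by nlinarith
          have t3 : t ^ 3 < 1 / 4 := by nlinarith [sq_nonneg t]
          have t3' : 0 < t ^ 3 := by positivity
          rcases sg_or (s 1) with a | a <;> rcases sg_or (s 0) with b | b <;> rw [a, b] <;>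
            nlinarith
        · exact ok_of_cr (tendsto_poly (f := fun t => -P1 t) (by fun_prop) (P := D 0)
            (by simp only [z1, neg_neg]))
            (by simpa using tendsto_id'.div_const 2) h0
      filter_upwards [h, evpos] with t ht hpos
      have e : (2 : ZMod g) - 1 = 1 := by ring
      rw [e, f1, f2]
      refine bl (by positivity) (neg_ne_zero.mpr ?_) ht
      exact rot_ne (neg_ne_zero.mpr (fv_ne (hD 0) t)) _
    by_cases i3 : i = 3
    · subst i3
      have h := ok_neg (b := s 3) (e := fun t => t ^ 2) (hD 3)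
        (tendsto_poly (f := fun t => -P2 t) (by fun_prop) (P := -D 0) (by simp only [z2]))
        tendsto_sq (hDD 0 3)
      filter_upwards [h, evpos] with t ht hpos
      have e : (3 : ZMod g) - 1 = 2 := by ring
      rw [e, f2, f3]
      exact fl (by positivity) (hD 3) ht
    by_cases i4 : i = 4
    · subst i4
      have h := ok_neg (b := s 4) (e := fun t => t) (hD 4)
        (tendsto_poly (f := fun t => -P3 t) (by fun_prop) (P := -D 3) (by simp only [z3]))
        tendsto_id' (hDD 3 4)
      filter_upwards [h, evpos] with t ht hpos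
      have e : (4 : ZMod g) - 1 = 3 := by ring
      rw [e, f3, f4]
      exact bl hpos (neg_ne_zero.mpr (fv_ne (hD 3) t)) ht
    by_cases i5 : i = 5
    · subst i5
      have h : ∀ᶠ t in 𝓝[>] (0 : ℝ), OK (s 5) (-P4 t) (D 5) (t ^ 2) := by
        rcases hDD 3 5 with h0 | h0
        · filter_upwards [evpos, evlt (c := 1) (by norm_num)] with t hpos hlt
          rw [← h0]
          have hN := ip_self_pos (hD 3)
          have e1 : cr (-P4 t) (D 3) =
              (sg (s 1)) * (t + t ^ 2) * ip (D 3) (D 3) := by
            simp only [hP4, hP3, fv, J, cr, ip, Prod.fst_neg, Prod.snd_neg, Prod.fst_add,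
              Prod.snd_add, Prod.smul_fst, Prod.smul_snd, smul_eq_mul, Prod.fst_sub, Prod.snd_sub,
              g4, g3]
            ring
          have e2 : ip (-P4 t) (D 3) =
              (1 - (sg (s 1) * sg (s 1)) * t ^ 3) * ip (D 3) (D 3) := by
            simp only [hP4, hP3, fv, J, ip, Prod.fst_neg, Prod.snd_neg, Prod.fst_add,
              Prod.snd_add, Prod.smul_fst, Prod.smul_snd, smul_eq_mul, Prod.fst_sub, Prod.snd_sub,
              g4, g3]
            ring
          have t3' : 0 < t ^ 3 := by positivity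
          have t2' : 0 < t ^ 2 := by positivity
          have hpN := mul_pos hpos hN
          have hpN2 := mul_pos t2' hN
          have hpN3 := mul_pos t3' hpN2
          unfold OK
          rw [e1, e2, sg_sq]
          right
          rcases sg_or (s 1) with a | a <;> rcases sg_or (s 5) with b | b <;> rw [a, b]
          · right; nlinarith
          · left; nlinarith
          · left; nlinarith
          · right; nlinarith
        · exact ok_of_cr (tendsto_poly (f := fun t => -P4 t) (by fun_prop) (P := D 3)
            (by simp only [z4, neg_neg])) tendsto_sq h0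
      filter_upwards [h, evpos] with t ht hpos
      have e : (5 : ZMod g) - 1 = 4 := by ring
      rw [e, f4, fo t 5 i1 i2 i4]
      exact fl (by positivity) (hD 5) ht
    · have h := ok_neg (b := s i) (e := fun t => t ^ 2) (hD i)
        (tendsto_poly (f := fun t => -fv (s (i - 1)) (D (i - 1)) t) (by fun_prop)
          (P := -D (i - 1)) (by simp)) tendsto_sq (hDD (i - 1) i)
      filter_upwards [h, evpos] with t ht hpos
      rw [fo t i i1 i2 i4, fo t (i - 1) (fun h => i2 (by linear_combination h))
        (fun h => i3 (by linear_combination h)) (fun h => i5 (by linear_combination h))]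
      exact fl (by positivity) (hD i) ht
  have hk01 : ∀ t, cr (P0 t) (P1 t) = -(sg (s 1) * t * ip (P0 t) (P0 t)) := fun t => cr_bl _ _
  have p0 : ∀ t, 0 < ip (P0 t) (P0 t) := fun t => ip_self_pos (fv_ne (hD 0) t)
  -- continuity of the cross products
  have ccr : ∀ {f h : ℝ → ℝ × ℝ}, Continuous f → Continuous h →
      Continuous (fun t => cr (f t) (h t)) := by
    intro f h hf hh
    unfold cr
    fun_prop
  have tri : ∀ᶠ t in 𝓝[>] (0 : ℝ), ∃ i j k, 0 < cr (φ t i) (φ t j) ∧ 0 < cr (φ t j) (φ t k) ∧
      0 < cr (φ t k) (φ t i) := by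
    rcases hDD 0 3 with h0 | h0
    · -- parallel case
      filter_upwards [evpos, evlt (c := 1 / 4) (by norm_num)] with t hpos hlt
      have hN := ip_self_pos (hD 0)
      have q0 := mul_pos hpos (p0 t)
      have t2 : t ^ 2 < t / 4 := by nlinarith
      have t2' : 0 < t ^ 2 := by positivity
      have t3 : t ^ 3 < t / 16 := by nlinarith
      have t3' : 0 < t ^ 3 := by positivity
      have t4 : t ^ 4 < t / 64 := by nlinarith
      have t4' : 0 < t ^ 4 := by positivity
      have t5 : t ^ 5 < t / 256 := by nlinarith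
      have t5' : 0 < t ^ 5 := by positivity
      have e14 : sg (s 1) * cr (P1 t) (P4 t) = ((sg (s 1) * sg (s 0) - sg (s 1) * sg (s 1)) *
          t ^ 2 * (1 - (sg (s 1) * sg (s 1)) * t ^ 2) -
          2 * (sg (s 1) * sg (s 1)) * t * (1 + sg (s 1) * sg (s 0) * t ^ 4)) *
            ip (D 0) (D 0) := by
        simp only [hP1, hP0, hP4, hP3, fv, J, cr, ip, Prod.fst_neg, Prod.snd_neg, Prod.fst_add,
          Prod.snd_add, Prod.smul_fst, Prod.smul_snd, smul_eq_mul, Prod.fst_sub, Prod.snd_sub,
          g4, g3, ← h0]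
        ring
      have e40 : sg (s 1) * cr (P4 t) (P0 t) = ((sg (s 1) * sg (s 0) - sg (s 1) * sg (s 1)) *
          t ^ 2 -
          (sg (s 1) * sg (s 1)) * t * (1 + sg (s 1) * sg (s 0) * t ^ 4)) *
            ip (D 0) (D 0) := by
        simp only [hP0, hP4, hP3, fv, J, cr, ip, Prod.fst_neg, Prod.snd_neg, Prod.fst_add,
          Prod.snd_add, Prod.smul_fst, Prod.smul_snd, smul_eq_mul, Prod.fst_sub, Prod.snd_sub,
          g4, g3, ← h0]
        ring
      have n14 : sg (s 1) * cr (P1 t) (P4 t) < 0 := by
        rw [e14, sg_sq]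
        refine mul_neg_of_neg_of_pos ?_ hN
        rcases sg_or (s 1) with a | a <;> rcases sg_or (s 0) with b | b <;> rw [a, b] <;>
          nlinarith
      have n40 : sg (s 1) * cr (P4 t) (P0 t) < 0 := by
        rw [e40, sg_sq]
        refine mul_neg_of_neg_of_pos ?_ hN
        rcases sg_or (s 1) with a | a <;> rcases sg_or (s 0) with b | b <;> rw [a, b] <;>
          nlinarith
      have k01 := hk01 t
      rcases sg_or (s 1) with a | a
      · rw [a] at n14 n40 k01
        refine ⟨0, 4, 1, ?_, ?_, ?_⟩
        · rw [f0, f4, cr_anti]; linarith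
        · rw [f4, f1, cr_anti]; linarith
        · rw [f1, f0, cr_anti, k01]; linarith
      · rw [a] at n14 n40 k01
        refine ⟨0, 1, 4, ?_, ?_, ?_⟩
        · rw [f0, f1, k01]; linarith
        · rw [f1, f4]; linarith
        · rw [f4, f0]; linarith
    · -- not parallel
      have l03 : Tendsto (fun t => cr (P0 t) (P3 t)) (𝓝[>] 0) (𝓝 (cr (D 0) (D 3))) := by
        have := ((ccr c0 c3).tendsto 0).mono_left (nhdsWithin_le_nhds (s := Set.Ioi (0:ℝ)))
        simpa only [z0, z3] using this
      have l31 : Tendsto (fun t => cr (P3 t) (P1 t)) (𝓝[>] 0) (𝓝 (cr (D 0) (D 3))) := by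
        have := ((ccr c3 c1).tendsto 0).mono_left (nhdsWithin_le_nhds (s := Set.Ioi (0:ℝ)))
        simp only [z1, z3] at this
        have e : cr (D 3) (-D 0) = cr (D 0) (D 3) := by simp [cr]; ring
        rwa [e] at this
      have l14 : Tendsto (fun t => cr (P1 t) (P4 t)) (𝓝[>] 0) (𝓝 (cr (D 0) (D 3))) := by
        have := ((ccr c1 c4).tendsto 0).mono_left (nhdsWithin_le_nhds (s := Set.Ioi (0:ℝ)))
        simp only [z1, z4] at this
        have e : cr (-D 0) (-D 3) = cr (D 0) (D 3) := by simp [cr]
        rwa [e] at this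
      have l40 : Tendsto (fun t => cr (P4 t) (P0 t)) (𝓝[>] 0) (𝓝 (cr (D 0) (D 3))) := by
        have := ((ccr c4 c0).tendsto 0).mono_left (nhdsWithin_le_nhds (s := Set.Ioi (0:ℝ)))
        simp only [z0, z4] at this
        have e : cr (-D 3) (D 0) = cr (D 0) (D 3) := by simp [cr]; ring
        rwa [e] at this
      rcases lt_or_gt_of_ne h0 with hk | hk
      · filter_upwards [evpos, l03.eventually (gt_mem_nhds hk), l31.eventually (gt_mem_nhds hk),
          l14.eventually (gt_mem_nhds hk), l40.eventually (gt_mem_nhds hk)] with t hpos a03 a31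
          a14 a40
        have q0 := mul_pos hpos (p0 t)
        have k01 := hk01 t
        rcases sg_or (s 1) with a | a
        · -- sign k = - s : all of 01, 14, 40 negative
          rw [a] at k01
          refine ⟨0, 4, 1, ?_, ?_, ?_⟩
          · rw [f0, f4, cr_anti]; linarith
          · rw [f4, f1, cr_anti]; linarith
          · rw [f1, f0, cr_anti, k01]; linarith
        · rw [a] at k01
          refine ⟨0, 1, 3, ?_, ?_, ?_⟩
          · rw [f0, f1, k01]; linarith
          · rw [f1, f3, cr_anti]; linarith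
          · rw [f3, f0, cr_anti]; linarith
      · filter_upwards [evpos, l03.eventually (lt_mem_nhds hk), l31.eventually (lt_mem_nhds hk),
          l14.eventually (lt_mem_nhds hk), l40.eventually (lt_mem_nhds hk)] with t hpos a03 a31
          a14 a40
        have q0 := mul_pos hpos (p0 t)
        have k01 := hk01 t
        rcases sg_or (s 1) with a | a
        · rw [a] at k01
          refine ⟨0, 3, 1, ?_, ?_, ?_⟩
          · rw [f0, f3]; exact a03
          · rw [f3, f1]; exact a31
          · rw [f1, f0, cr_anti, k01]; linarith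
        · rw [a] at k01
          refine ⟨0, 1, 4, ?_, ?_, ?_⟩
          · rw [f0, f1, k01]; linarith
          · rw [f1, f4]; exact a14
          · rw [f4, f0]; exact a40
  have hall := (eventually_all.mpr key).and tri
  obtain ⟨t, ht, htri⟩ := hall.exists
  exact ⟨φ t, ht, htri⟩

end Pool.Agent.T6.H93.RS
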