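import Pool.Agent.T6.H93.RS.Defs

/-!
MP_8b4fe7_lc, project RS: local facts used by the modules ZN and ZA.
-/

namespace Pool.Agent.T6.H93.RS

namespace ModZ

open Filter Topology

/-- Rotation by a right angle. -/
def J (v : ℝ × ℝ) : ℝ × ℝ := (-v.2, v.1)

/-- The scalar product. -/
def ip (a b : ℝ × ℝ) : ℝ := a.1 * b.1 + a.2 * b.2

/-- The sign of a Boolean. -/
def sg (b : Bool) : ℝ := if b then 1 else -1

theorem sg_sq (b : Bool) : sg b * sg b = 1 := by cases b <;> simp [sg]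

theorem sg_or (b : Bool) : sg b = 1 ∨ sg b = -1 := by cases b <;> simp [sg]

theorem sg_not (b : Bool) : sg (!b) = -sg b := by cases b <;> simp [sg]

theorem abs_sg (b : Bool) : |sg b| = 1 := by cases b <;> simp [sg]

theorem ip_self_pos {a : ℝ × ℝ} (h : a ≠ 0) : 0 < ip a a := by
  unfold ip
  rcases eq_or_ne a.1 0 with h1 | h1
  · rcases eq_or_ne a.2 0 with h2 | h2
    · exact absurd (Prod.ext h1 h2) h
    · have := mul_self_pos.mpr h2
      have := mul_self_nonneg a.1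
      linarith
  · have := mul_self_pos.mpr h1
    have := mul_self_nonneg a.2
    linarith

/-- The condition which suffices at a vertex. -/
def OK (b : Bool) (prev D : ℝ × ℝ) (e : ℝ) : Prop :=
  ip prev D < 0 ∨ sg b * cr prev D < 0 ∨ e * ip prev D < sg b * cr prev D

theorem OK.two {b : Bool} {prev D : ℝ × ℝ} {e : ℝ} (he : 0 < e) (h : OK b prev D e) :
    sg b * cr prev D < 0 ∨ e * ip prev D < sg b * cr prev D := by
  rcases h with h | h | h
  · rcases lt_or_ge (sg b * cr prev D) 0 with h1 | h1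
    · exact Or.inl h1
    · exact Or.inr (lt_of_lt_of_le (mul_neg_of_pos_of_neg he h) h1)
  · exact Or.inl h
  · exact Or.inr h

/-- FL. -/
theorem fl {b : Bool} {prev D : ℝ × ℝ} {e : ℝ} (he : 0 < e) (hD : D ≠ 0)
    (h : OK b prev D e) : CCWs b prev (D - (sg b * e) • J D) D := by
  have hN := ip_self_pos hD
  have hp : 0 < e * ip D D := mul_pos he hN
  cases b
  · -- CCW φ prev D
    have h0 := OK.two he h
    simp only [sg, cr, ip, Bool.false_eq_true, if_false] at h0 hp hN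
    change CCW _ _ _
    unfold CCW
    rcases h0 with h1 | h1
    · refine Or.inr (Or.inl ⟨?_, ?_⟩)
      · simp only [cr]; nlinarith
      · simp [cr, J, sg]; nlinarith
    · refine Or.inr (Or.inr ⟨?_, ?_⟩)
      · simp [cr, J, sg]; nlinarith
      · simp [cr, J, sg]; nlinarith
  · have h0 := OK.two he h
    simp only [sg, cr, ip, if_true] at h0 hp hN
    change CCW _ _ _
    unfold CCW
    rcases h0 with h1 | h1
    · refine Or.inr (Or.inl ⟨?_, ?_⟩)
      · simp [cr, J, sg]; nlinarith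
      · simp only [cr]; nlinarith
    · refine Or.inl ⟨?_, ?_⟩
      · simp [cr, J, sg]; nlinarith
      · simp [cr, J, sg]; nlinarith

/-- BL. -/
theorem bl {b : Bool} {prev D : ℝ × ℝ} {e : ℝ} (he : 0 < e) (hp0 : prev ≠ 0)
    (h : OK b prev D e) : CCWs b prev (prev + (sg b * e) • J prev) D := by
  have hN := ip_self_pos hp0
  have hp : 0 < e * ip prev prev := mul_pos he hN
  cases b
  · -- CCW φ prev D
    have h0 := OK.two he h
    simp only [sg, cr, ip, Bool.false_eq_true, if_false] at h0 hp hN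
    change CCW _ _ _
    unfold CCW
    rcases h0 with h1 | h1
    · refine Or.inl ⟨?_, ?_⟩
      · simp [cr, J, sg]; nlinarith
      · simp only [cr]; nlinarith
    · refine Or.inr (Or.inr ⟨?_, ?_⟩)
      · simp [cr, J, sg]; nlinarith
      · simp [cr, J, sg]; nlinarith
  · have h0 := OK.two he h
    simp only [sg, cr, ip, if_true] at h0 hp hN
    change CCW _ _ _
    unfold CCW
    rcases h0 with h1 | h1
    · refine Or.inr (Or.inr ⟨?_, ?_⟩)
      · simp only [cr]; nlinarith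
      · simp [cr, J, sg]; nlinarith
    · refine Or.inl ⟨?_, ?_⟩
      · simp [cr, J, sg]; nlinarith
      · simp [cr, J, sg]; nlinarith

/-- In the limit: `prev` and `D` not parallel. -/
theorem ok_of_cr {b : Bool} {prev : ℝ → ℝ × ℝ} {D P : ℝ × ℝ} {e : ℝ → ℝ}
    (hprev : Tendsto prev (𝓝[>] 0) (𝓝 P)) (he : Tendsto e (𝓝[>] 0) (𝓝 0))
    (h : cr P D ≠ 0) : ∀ᶠ t in 𝓝[>] (0 : ℝ), OK b (prev t) D (e t) := by
  have h1 : Tendsto (fun t => (prev t).1) (𝓝[>] 0) (𝓝 P.1) :=
    (continuous_fst.tendsto P).comp hprev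
  have h2 : Tendsto (fun t => (prev t).2) (𝓝[>] 0) (𝓝 P.2) :=
    (continuous_snd.tendsto P).comp hprev
  have hk : Tendsto (fun t => sg b * cr (prev t) D) (𝓝[>] 0) (𝓝 (sg b * cr P D)) := by
    unfold cr
    exact ((h1.mul_const _).sub (h2.mul_const _)).const_mul _
  have hi : Tendsto (fun t => ip (prev t) D) (𝓝[>] 0) (𝓝 (ip P D)) := by
    unfold ip
    exact (h1.mul_const _).add (h2.mul_const _)
  have hb : sg b * cr P D ≠ 0 := by
    refine mul_ne_zero ?_ h
    cases b <;> simp [sg]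
  rcases lt_or_gt_of_ne hb with h0 | h0
  · exact (hk.eventually (gt_mem_nhds h0)).mono fun t ht => Or.inr (Or.inl ht)
  · have hd : Tendsto (fun t => sg b * cr (prev t) D - e t * ip (prev t) D) (𝓝[>] 0)
        (𝓝 (sg b * cr P D - 0 * ip P D)) := hk.sub (he.mul hi)
    rw [zero_mul, sub_zero] at hd
    exact (hd.eventually (lt_mem_nhds h0)).mono fun t ht => Or.inr (Or.inr (by linarith))

/-- In the limit: `prev` points away from `D`. -/
theorem ok_of_ip {b : Bool} {prev : ℝ → ℝ × ℝ} {D P : ℝ × ℝ} {e : ℝ → ℝ}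
    (hprev : Tendsto prev (𝓝[>] 0) (𝓝 P)) (h : ip P D < 0) :
    ∀ᶠ t in 𝓝[>] (0 : ℝ), OK b (prev t) D (e t) := by
  have h1 : Tendsto (fun t => (prev t).1) (𝓝[>] 0) (𝓝 P.1) :=
    (continuous_fst.tendsto P).comp hprev
  have h2 : Tendsto (fun t => (prev t).2) (𝓝[>] 0) (𝓝 P.2) :=
    (continuous_snd.tendsto P).comp hprev
  have hi : Tendsto (fun t => ip (prev t) D) (𝓝[>] 0) (𝓝 (ip P D)) := by
    unfold ip
    exact (h1.mul_const _).add (h2.mul_const _)
  exact (hi.eventually (gt_mem_nhds h)).mono fun t ht => Or.inl ht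

/-- Common form: `prev → - E`, with `E = D` or `E, D` not parallel. -/
theorem ok_neg {b : Bool} {prev : ℝ → ℝ × ℝ} {D E : ℝ × ℝ} {e : ℝ → ℝ} (hD : D ≠ 0)
    (hprev : Tendsto prev (𝓝[>] 0) (𝓝 (-E))) (he : Tendsto e (𝓝[>] 0) (𝓝 0))
    (h : E = D ∨ cr E D ≠ 0) : ∀ᶠ t in 𝓝[>] (0 : ℝ), OK b (prev t) D (e t) := by
  rcases h with h | h
  · subst h
    refine ok_of_ip hprev ?_
    have := ip_self_pos hD
    simp only [ip, Prod.fst_neg, Prod.snd_neg] at this ⊢
    linarith
  · refine ok_of_cr hprev he ?_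
    intro h0
    apply h
    simp only [cr, Prod.fst_neg, Prod.snd_neg] at h0 ⊢
    linarith

/-- The vector `D` slightly rotated. -/
noncomputable def fv (b : Bool) (D : ℝ × ℝ) (t : ℝ) : ℝ × ℝ := D - (sg b * t ^ 2) • J D

theorem tendsto_poly {f : ℝ → ℝ × ℝ} (hf : Continuous f) {P : ℝ × ℝ} (h0 : f 0 = P) :
    Tendsto f (𝓝[>] 0) (𝓝 P) := by
  rw [← h0]
  exact (hf.tendsto 0).mono_left nhdsWithin_le_nhds

@[fun_prop]
theorem continuous_J : Continuous J := by
  unfold J; fun_prop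

@[fun_prop]
theorem continuous_fv (b : Bool) (D : ℝ × ℝ) : Continuous (fv b D) := by
  unfold fv; fun_prop

@[simp] theorem fv_zero (b : Bool) (D : ℝ × ℝ) : fv b D 0 = D := by simp [fv]

theorem tendsto_sq : Tendsto (fun t : ℝ => t ^ 2) (𝓝[>] 0) (𝓝 0) := by
  have h : Continuous (fun t : ℝ => t ^ 2) := by fun_prop
  have := (h.tendsto 0).mono_left (nhdsWithin_le_nhds (s := Set.Ioi (0:ℝ)))
  simpa using this

theorem tendsto_id' : Tendsto (fun t : ℝ => t) (𝓝[>] 0) (𝓝 0) :=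
  tendsto_id.mono_left nhdsWithin_le_nhds

theorem fv_ne {b : Bool} {D : ℝ × ℝ} (hD : D ≠ 0) (t : ℝ) : fv b D t ≠ 0 := by
  intro h
  have h1 := congrArg Prod.fst h
  have h2 := congrArg Prod.snd h
  simp only [fv, J, Prod.fst_sub, Prod.smul_fst, smul_eq_mul, Prod.fst_zero, Prod.snd_sub,
    Prod.smul_snd, Prod.snd_zero] at h1 h2
  have e1 : D.1 = -(sg b * t ^ 2 * D.2) := by linarith
  have e2 : D.2 = sg b * t ^ 2 * D.1 := by linarith
  have h4 : D.1 * D.1 + D.2 * D.2 = 0 := by linear_combination D.1 * e1 + D.2 * e2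
  have := ip_self_pos hD
  unfold ip at this
  linarith

theorem rot_ne {p : ℝ × ℝ} (hp : p ≠ 0) (x : ℝ) : p + x • J p ≠ 0 := by
  intro h
  have h1 := congrArg Prod.fst h
  have h2 := congrArg Prod.snd h
  simp only [J, Prod.fst_add, Prod.smul_fst, smul_eq_mul, Prod.fst_zero, Prod.snd_add,
    Prod.smul_snd, Prod.snd_zero] at h1 h2
  have := ip_self_pos hp
  unfold ip at this
  have e1 : p.1 = x * p.2 := by linarith
  have e2 : p.2 = -(x * p.1) := by linarith
  have h4 : p.1 * p.1 + p.2 * p.2 = 0 := by linear_combination p.1 * e1 + p.2 * e2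
  linarith

theorem cr_anti (a b : ℝ × ℝ) : cr a b = -cr b a := by simp only [cr]; ring

theorem cr_bl (p : ℝ × ℝ) (x : ℝ) : cr p (-p + x • J (-p)) = -(x * ip p p) := by
  simp [cr, J, ip]; ring

theorem cr_bl2 (p : ℝ × ℝ) (x : ℝ) :
    cr (-(-p + x • J (-p)) + x • J (-(-p + x • J (-p)))) p = -(2 * x * ip p p) := by
  simp [cr, J, ip]; ring

/-- The number `n` is not zero in `ZMod g` for `0 < n < g`. -/
theorem num_ne {g : ℕ} (n : ℕ) (h0 : 0 < n) (h : n < g) : ((n : ℕ) : ZMod g) ≠ 0 := by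
  intro h1
  rw [ZMod.natCast_eq_zero_iff] at h1
  exact absurd (Nat.le_of_dvd h0 h1) (by omega)

theorem evpos : ∀ᶠ t in 𝓝[>] (0 : ℝ), 0 < t := eventually_mem_nhdsWithin

theorem evlt {c : ℝ} (hc : 0 < c) : ∀ᶠ t in 𝓝[>] (0 : ℝ), t < c :=
  (eventually_lt_nhds hc).filter_mono nhdsWithin_le_nhds

end ModZ

end Pool.Agent.T6.H93.RS
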