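import Pool.Agent.T6.H93.RS.ZLoc

/-!
MP_8b4fe7_lc, project RS, module ZN: edge directions in the non-alternating case.
-/

namespace Pool.Agent.T6.H93.RS

open Filter Topology ModZ

theorem mZN : StmtZN := by
  intro g hg s D hD hDD hs
  have : NeZero g := ⟨by omega⟩
  have n1 : (1 : ZMod g) ≠ 0 := by simpa using num_ne (g := g) 1 (by omega) (by omega)
  have n2 : (2 : ZMod g) ≠ 0 := by simpa using num_ne (g := g) 2 (by omega) (by omega)
  set P0 : ℝ → ℝ × ℝ := fun t => fv (s 0) (D 0) t with hP0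
  set P1 : ℝ → ℝ × ℝ := fun t => -P0 t + (sg (s 1) * t) • J (-P0 t) with hP1
  set P2 : ℝ → ℝ × ℝ := fun t => -P1 t + (sg (s 2) * t) • J (-P1 t) with hP2
  have c0 : Continuous P0 := by rw [hP0]; fun_prop
  have c1 : Continuous P1 := by rw [hP1]; fun_prop
  have c2 : Continuous P2 := by rw [hP2]; fun_prop
  have z0 : P0 0 = D 0 := by simp [hP0]
  have z1 : P1 0 = -D 0 := by simp [hP1, z0]
  have z2 : P2 0 = D 0 := by simp [hP2, z1]
  set φ : ℝ → ZMod g → ℝ × ℝ := fun t i =>
    if i = 1 then P1 t else if i = 2 then P2 t else fv (s i) (D i) t with hφ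
  have f0 : ∀ t, φ t 0 = P0 t := fun t => by
    simp only [hφ, hP0]
    rw [if_neg (fun h => n1 h.symm), if_neg (fun h => n2 h.symm)]
  have f1 : ∀ t, φ t 1 = P1 t := fun t => by simp [hφ]
  have d21 : (2 : ZMod g) ≠ 1 := fun h => n1 (by linear_combination h)
  have f2 : ∀ t, φ t 2 = P2 t := fun t => by
    simp only [hφ]
    rw [if_neg d21]
    simp
  have fo : ∀ t i, i ≠ 1 → i ≠ 2 → φ t i = fv (s i) (D i) t := fun t i h1 h2 => by
    simp only [hφ]
    rw [if_neg h1, if_neg h2]
  have key : ∀ i, ∀ᶠ t in 𝓝[>] (0 : ℝ), CCWs (s i) (-(φ t (i - 1))) (φ t i) (D i) := by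
    intro i
    by_cases i1 : i = 1
    · subst i1
      have h := ok_neg (b := s 1) (e := fun t => t) (hD 1)
        (tendsto_poly (f := fun t => -P0 t) (by fun_prop) (P := -D 0) (by simp only [z0]))
        tendsto_id' (hDD 0 1)
      filter_upwards [h, evpos] with t ht hpos
      rw [sub_self, f0, f1]
      exact bl hpos (neg_ne_zero.mpr (fv_ne (hD 0) t)) ht
    by_cases i2 : i = 2
    · subst i2
      have h : ∀ᶠ t in 𝓝[>] (0 : ℝ), OK (s 2) (-P1 t) (D 2) t := by
        rcases hDD 0 2 with h0 | h0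
        · filter_upwards [evpos, evlt (one_pos)] with t hpos hlt
          right; left
          rw [← h0, ← hs]
          have hN := ip_self_pos (hD 0)
          have e1 : sg (s 1) * cr (-P1 t) (D 0) =
              (sg (s 1) * sg (s 0) * t ^ 2 - (sg (s 1) * sg (s 1)) * t) * ip (D 0) (D 0) := by
            simp only [hP1, hP0, fv, J, cr, ip, Prod.fst_neg, Prod.snd_neg, Prod.fst_add,
              Prod.snd_add, Prod.smul_fst, Prod.smul_snd, smul_eq_mul, Prod.fst_sub, Prod.snd_sub]
            ring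
          rw [e1, sg_sq, one_mul]
          refine mul_neg_of_neg_of_pos ?_ hN
          rcases sg_or (s 1) with a | a <;> rcases sg_or (s 0) with b | b <;> rw [a, b] <;>
            nlinarith
        · exact ok_of_cr (tendsto_poly (f := fun t => -P1 t) (by fun_prop) (P := D 0)
            (by simp only [z1, neg_neg])) tendsto_id' h0
      filter_upwards [h, evpos] with t ht hpos
      have e : (2 : ZMod g) - 1 = 1 := by ring
      rw [e, f1, f2]
      refine bl hpos (neg_ne_zero.mpr ?_) ht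
      exact rot_ne (neg_ne_zero.mpr (fv_ne (hD 0) t)) _
    by_cases i3 : i = 3
    · subst i3
      have h := ok_neg (b := s 3) (e := fun t => t ^ 2) (hD 3)
        (tendsto_poly (f := fun t => -P2 t) (by fun_prop) (P := -D 0) (by simp only [z2]))
        tendsto_sq (hDD 0 3)
      filter_upwards [h, evpos] with t ht hpos
      have e : (3 : ZMod g) - 1 = 2 := by ring
      rw [e, f2, fo t 3 i1 i2]
      exact fl (by positivity) (hD 3) ht
    · have h := ok_neg (b := s i) (e := fun t => t ^ 2) (hD i)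
        (tendsto_poly (f := fun t => -fv (s (i - 1)) (D (i - 1)) t) (by fun_prop)
          (P := -D (i - 1)) (by simp)) tendsto_sq (hDD (i - 1) i)
      filter_upwards [h, evpos] with t ht hpos
      rw [fo t i i1 i2, fo t (i - 1) (fun h => i2 (by linear_combination h))
        (fun h => i3 (by linear_combination h))]
      exact fl (by positivity) (hD i) ht
  have hall := (eventually_all.mpr key).and evpos
  obtain ⟨t, ht, hpos⟩ := hall.exists
  refine ⟨φ t, ht, ?_⟩
  have k1 : cr (φ t 0) (φ t 1) = -(sg (s 1) * t * ip (P0 t) (P0 t)) := by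
    rw [f0, f1]; exact cr_bl _ _
  have k2 : cr (φ t 1) (φ t 2) = -(sg (s 2) * t * ip (P1 t) (P1 t)) := by
    rw [f1, f2]; exact cr_bl _ _
  have k3 : cr (φ t 2) (φ t 0) = -(2 * (sg (s 1) * t) * ip (P0 t) (P0 t)) := by
    rw [f2, f0, ← cr_bl2]
    simp only [hP2, hP1, ← hs]
  have p0 : 0 < ip (P0 t) (P0 t) := ip_self_pos (fv_ne (hD 0) t)
  have p1 : 0 < ip (P1 t) (P1 t) :=
    ip_self_pos (rot_ne (neg_ne_zero.mpr (fv_ne (hD 0) t)) _)
  have q0 := mul_pos hpos p0
  have q1 := mul_pos hpos p1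
  rcases sg_or (s 1) with a | a
  · refine ⟨0, 2, 1, ?_, ?_, ?_⟩
    · rw [cr_anti, k3, a]; linarith
    · rw [cr_anti, k2, ← hs, a]; linarith
    · rw [cr_anti, k1, a]; linarith
  · refine ⟨0, 1, 2, ?_, ?_, ?_⟩
    · rw [k1, a]; linarith
    · rw [k2, ← hs, a]; linarith
    · rw [k3, a]; linarith

end Pool.Agent.T6.H93.RS
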